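import Pool.Agent.Helper52.C2.Defs

/-!
PROJECT C2 (MP_2b0227_gt): linear algebra of one-positivity.

* `onePos_iff`: one-positivity = reverse Cauchy-Schwarz inequality;
* `onePos_of_two`: it is enough to look at two-dimensional subspaces;
* `onePos_lim`: one-positivity is closed under limits;
* `rad_of_null`: null vectors orthogonal to a positive vector are in the radical;
* `idx`: the index argument of the master theorem.
-/

namespace Pool.Agent.Helper46.C2

open Pool.Agent.Helper52.C2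

variable {ι : Type} [Fintype ι]

/-- the bilinear form of a matrix -/
def bil (M : ι → ι → ℝ) (u v : ι → ℝ) : ℝ := ∑ a, ∑ b, u a * M a b * v b

theorem quad_eq_bil (M : ι → ι → ℝ) (v : ι → ℝ) : quad M v = bil M v v := rfl

theorem bil_symm {M : ι → ι → ℝ} (hM : ∀ a b, M a b = M b a) (u v : ι → ℝ) :
    bil M u v = bil M v u := by
  unfold bil
  rw [Finset.sum_comm]
  refine Finset.sum_congr rfl fun a _ => Finset.sum_congr rfl fun b _ => ?_
  rw [hM b a]; ring

theorem bil_lin_right (M : ι → ι → ℝ) (u v w : ι → ℝ) (s t : ℝ) :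
    bil M u (s • v + t • w) = s * bil M u v + t * bil M u w := by
  unfold bil
  simp only [Pi.add_apply, Pi.smul_apply, smul_eq_mul, Finset.mul_sum]
  rw [← Finset.sum_add_distrib]
  refine Finset.sum_congr rfl fun a _ => ?_
  rw [← Finset.sum_add_distrib]
  refine Finset.sum_congr rfl fun b _ => ?_
  ring

theorem bil_lin_left (M : ι → ι → ℝ) (u v w : ι → ℝ) (s t : ℝ) :
    bil M (s • v + t • w) u = s * bil M v u + t * bil M w u := by
  unfold bil
  simp only [Pi.add_apply, Pi.smul_apply, smul_eq_mul, Finset.mul_sum]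
  rw [← Finset.sum_add_distrib]
  refine Finset.sum_congr rfl fun a _ => ?_
  rw [← Finset.sum_add_distrib]
  refine Finset.sum_congr rfl fun b _ => ?_
  ring

theorem quad_comb {M : ι → ι → ℝ} (hM : ∀ a b, M a b = M b a) (v w : ι → ℝ) (s t : ℝ) :
    quad M (s • v + t • w) = s ^ 2 * quad M v + 2 * s * t * bil M v w + t ^ 2 * quad M w := by
  simp only [quad_eq_bil]
  rw [bil_lin_left, bil_lin_right, bil_lin_right, bil_symm hM w v]
  ring

theorem quad_zero (M : ι → ι → ℝ) : quad M 0 = 0 := by simp [quad]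

theorem quad_smul (M : ι → ι → ℝ) (s : ℝ) (v : ι → ℝ) : quad M (s • v) = s ^ 2 * quad M v := by
  unfold quad
  simp only [Pi.smul_apply, smul_eq_mul, Finset.mul_sum]
  refine Finset.sum_congr rfl fun a _ => Finset.sum_congr rfl fun b _ => ?_
  ring

/-- the reverse Cauchy-Schwarz inequality in the allowed directions -/
def RevCS (ok : ι → Prop) (M : ι → ι → ℝ) : Prop :=
  ∀ u v : ι → ℝ, (∀ a, ¬ ok a → u a = 0) → (∀ a, ¬ ok a → v a = 0) → 0 < quad M u →
    quad M u * quad M v ≤ bil M u v ^ 2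

theorem OnePos.revCS {ok : ι → Prop} {M : ι → ι → ℝ} (hM : ∀ a b, M a b = M b a)
    (h : OnePos ok M) : RevCS ok M := by
  obtain ⟨l, hl⟩ := h
  intro u v hu hv hpos
  set lu := ∑ a, l a * u a with hlu
  set lv := ∑ a, l a * v a with hlv
  have hne : lu ≠ 0 := fun h0 => absurd (hl u hu h0) (not_le.mpr hpos)
  have key := hl ((-lv) • u + lu • v) (fun a ha => by simp [hu a ha, hv a ha]) (by
    simp only [Pi.add_apply, Pi.smul_apply, smul_eq_mul, mul_add, Finset.sum_add_distrib]
    have e1 : ∑ a, l a * (-lv * u a) = -lv * lu := by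
      rw [hlu, Finset.mul_sum]; exact Finset.sum_congr rfl fun a _ => by ring
    have e2 : ∑ a, l a * (lu * v a) = lu * lv := by
      rw [hlv, Finset.mul_sum]; exact Finset.sum_congr rfl fun a _ => by ring
    rw [e1, e2]; ring)
  rw [quad_comb hM] at key
  have h2 : 0 < lu ^ 2 := by positivity
  have : lu ^ 2 * (quad M u * quad M v) ≤ lu ^ 2 * bil M u v ^ 2 := by
    nlinarith [sq_nonneg (lv * quad M u - lu * bil M u v), mul_le_mul_of_nonneg_left key hpos.le]
  exact le_of_mul_le_mul_left this h2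

theorem RevCS.onePos {ok : ι → Prop} {M : ι → ι → ℝ}
    (h : RevCS ok M) : OnePos ok M := by
  by_cases hex : ∃ u : ι → ℝ, (∀ a, ¬ ok a → u a = 0) ∧ 0 < quad M u
  · obtain ⟨u, hu, hpos⟩ := hex
    refine ⟨fun b => ∑ a, u a * M a b, fun v hv hl => ?_⟩
    have hb : bil M u v = 0 := by
      rw [← hl]
      unfold bil
      rw [Finset.sum_comm]
      refine Finset.sum_congr rfl fun b _ => ?_
      rw [Finset.sum_mul]
    have := h u v hu hv hpos
    rw [hb] at this
    by_contra hc
    push Not at hc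
    have := mul_pos hpos hc
    nlinarith
  · push Not at hex
    exact ⟨0, fun v hv _ => hex v hv⟩

theorem onePos_iff {ok : ι → Prop} {M : ι → ι → ℝ} (hM : ∀ a b, M a b = M b a) :
    OnePos ok M ↔ RevCS ok M := ⟨OnePos.revCS hM, RevCS.onePos⟩

/-- It is enough that every two allowed vectors have a nontrivial combination with `quad ≤ 0`. -/
theorem onePos_of_two {ok : ι → Prop} {M : ι → ι → ℝ} (hM : ∀ a b, M a b = M b a)
    (h : ∀ u v : ι → ℝ, (∀ a, ¬ ok a → u a = 0) → (∀ a, ¬ ok a → v a = 0) →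
      ∃ s t : ℝ, (s ≠ 0 ∨ t ≠ 0) ∧ quad M (s • u + t • v) ≤ 0) : OnePos ok M := by
  refine RevCS.onePos fun u v hu hv hpos => ?_
  by_contra hc
  push Not at hc
  obtain ⟨s, t, hst, hle⟩ := h u v hu hv
  rw [quad_comb hM] at hle
  have e : quad M u * (s ^ 2 * quad M u + 2 * s * t * bil M u v + t ^ 2 * quad M v) =
      (s * quad M u + t * bil M u v) ^ 2 + t ^ 2 * (quad M u * quad M v - bil M u v ^ 2) := by ring
  have hle' : quad M u * (s ^ 2 * quad M u + 2 * s * t * bil M u v + t ^ 2 * quad M v) ≤ 0 :=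
    mul_nonpos_of_nonneg_of_nonpos hpos.le hle
  rw [e] at hle'
  have hd : 0 < quad M u * quad M v - bil M u v ^ 2 := by linarith
  have ht : t = 0 := by
    by_contra ht
    have : 0 < t ^ 2 * (quad M u * quad M v - bil M u v ^ 2) := by positivity
    nlinarith [sq_nonneg (s * quad M u + t * bil M u v)]
  subst ht
  have hs : s ≠ 0 := by simpa using hst
  have h1 : 0 < (s * quad M u) ^ 2 := by positivity
  nlinarith

/-- One-positivity is closed under limits. -/
theorem onePos_lim {ok : ι → Prop} {M : ι → ι → ℝ} {N : ℕ → ι → ι → ℝ}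
    (hN : ∀ n a b, N n a b = N n b a)
    (hlim : ∀ a b, Filter.Tendsto (fun n => N n a b) Filter.atTop (nhds (M a b)))
    (h : ∀ n, OnePos ok (N n)) : OnePos ok M := by
  have hbil : ∀ u v : ι → ℝ,
      Filter.Tendsto (fun n => bil (N n) u v) Filter.atTop (nhds (bil M u v)) := by
    intro u v
    unfold bil
    refine tendsto_finsetSum _ fun a _ => tendsto_finsetSum _ fun b _ => ?_
    exact ((hlim a b).const_mul (u a)).mul_const (v b)
  refine RevCS.onePos fun u v hu hv hpos => ?_
  have hq : ∀ᶠ n in Filter.atTop, 0 < quad (N n) u := (hbil u u).eventually_const_lt hpos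
  have hle : ∀ᶠ n in Filter.atTop, quad (N n) u * quad (N n) v ≤ bil (N n) u v ^ 2 := by
    filter_upwards [hq] with n hn
    exact OnePos.revCS (hN n) (h n) u v hu hv hn
  exact le_of_tendsto_of_tendsto ((hbil u u).mul (hbil v v)) ((hbil u v).pow 2) hle

/-- A null vector which is orthogonal to a positive vector is in the radical. -/
theorem rad_of_null {ok : ι → Prop} {M : ι → ι → ℝ} (hM : ∀ a b, M a b = M b a)
    (h : RevCS ok M) {w s : ι → ℝ} (hw : ∀ a, ¬ ok a → w a = 0) (hs : ∀ a, ¬ ok a → s a = 0)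
    (hpos : 0 < quad M w) (h1 : bil M w s = 0) (h2 : quad M s = 0)
    {v : ι → ℝ} (hv : ∀ a, ¬ ok a → v a = 0) : bil M v s = 0 := by
  by_contra hne
  -- take `v + t s` with `t` large
  have key : ∀ t : ℝ, quad M w * (quad M v + 2 * t * bil M v s) ≤ bil M w v ^ 2 := by
    intro t
    have := h w ((1 : ℝ) • v + t • s) hw (fun a ha => by simp [hv a ha, hs a ha]) hpos
    rw [quad_comb hM, bil_lin_right, h1, h2] at this
    nlinarith
  set q := quad M w
  set b := bil M v s
  have := key ((bil M w v ^ 2 - q * quad M v + 1) / (2 * q * b))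
  have e : q * (quad M v + 2 * ((bil M w v ^ 2 - q * quad M v + 1) / (2 * q * b)) * b) =
      bil M w v ^ 2 + 1 := by
    field_simp
    ring
  linarith

/-- A nonnegative matrix without positive vector vanishes. -/
theorem eq_zero_of_nonpos {M : ι → ι → ℝ} [DecidableEq ι] (hM : ∀ a b, M a b = M b a)
    {ok : ι → Prop} (h0 : ∀ a b, ok a → ok b → 0 ≤ M a b)
    (h : ∀ v : ι → ℝ, (∀ a, ¬ ok a → v a = 0) → quad M v ≤ 0) {a b : ι} (ha : ok a) (hb : ok b) :
    M a b = 0 := by
  have hbil : ∀ a b : ι, bil M (Pi.single a 1) (Pi.single b 1) = M a b := by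
    intro a b
    unfold bil
    rw [Finset.sum_eq_single a, Finset.sum_eq_single b] <;> simp +contextual [Pi.single_apply]
  have hok : ∀ a, ok a → ∀ c, ¬ ok c → (Pi.single a (1 : ℝ) : ι → ℝ) c = 0 := by
    intro a ha c hc
    rw [Pi.single_apply, if_neg]
    rintro rfl
    exact hc ha
  have hq := h ((1 : ℝ) • Pi.single a 1 + (1 : ℝ) • Pi.single b 1) (fun c hc => by
    simp [hok a ha c hc, hok b hb c hc])
  rw [quad_comb hM, quad_eq_bil, quad_eq_bil, hbil, hbil, hbil] at hq
  have h1 := h0 a b ha hb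
  have h2 := h0 a a ha ha
  have h3 := h0 b b hb hb
  linarith

/-- The index argument: there is a nontrivial solution of all equations. -/
theorem idx_sol {C V Z W : Type*} [Fintype C] [AddCommGroup V] [Module ℝ V]
    [FiniteDimensional ℝ V] [AddCommGroup Z] [Module ℝ Z] [FiniteDimensional ℝ Z]
    [AddCommGroup W] [Module ℝ W] (l : C → W →ₗ[ℝ] ℝ) (i : V →ₗ[ℝ] W) (s : C → Z →ₗ[ℝ] W)
    (hdim : Fintype.card C ≤ Module.finrank ℝ Z + 1) (hV : 2 ≤ Module.finrank ℝ V) :
    ∃ v z, (v ≠ 0 ∨ z ≠ 0) ∧ ∀ c, l c (i v + s c z) = 0 := by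
  classical
  let Φ : (V × Z) →ₗ[ℝ] (C → ℝ) :=
    LinearMap.pi fun c => (l c).comp (i.comp (LinearMap.fst ℝ V Z) +
      (s c).comp (LinearMap.snd ℝ V Z))
  have hker : LinearMap.ker Φ ≠ ⊥ := by
    apply LinearMap.ker_ne_bot_of_finrank_lt
    rw [Module.finrank_prod, Module.finrank_fintype_fun_eq_card]
    omega
  obtain ⟨⟨v, z⟩, hmem, hne⟩ := Submodule.exists_mem_ne_zero_of_ne_bot hker
  refine ⟨v, z, ?_, fun c => ?_⟩
  · by_contra hc
    push Not at hc
    exact hne (by rw [hc.1, hc.2]; rfl)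
  · have := congrFun (LinearMap.mem_ker.mp hmem) c
    simpa [Φ] using this

/-- The index argument. -/
theorem idx {C V Z W : Type*} [Fintype C] [AddCommGroup V] [Module ℝ V] [FiniteDimensional ℝ V]
    [AddCommGroup Z] [Module ℝ Z] [FiniteDimensional ℝ Z] [AddCommGroup W] [Module ℝ W]
    (Q : C → W → ℝ) (l : C → W →ₗ[ℝ] ℝ) (hQ : ∀ c w, l c w = 0 → Q c w ≤ 0)
    (i : V →ₗ[ℝ] W) (s : C → Z →ₗ[ℝ] W) (N : V → ℝ) (P : Z → ℝ) (N0 : N 0 = 0)
    (hP : ∀ z, 0 ≤ P z) (hid : ∀ v z, N v + P z = ∑ c, Q c (i v + s c z))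
    (hdim : Fintype.card C ≤ Module.finrank ℝ Z + 1) (hV : 2 ≤ Module.finrank ℝ V)
    (hstrict : ∀ z, (∀ c, l c (s c z) = 0 ∧ Q c (s c z) = 0) → z = 0) :
    ∃ v, v ≠ 0 ∧ N v ≤ 0 := by
  obtain ⟨v, z, hne, hl⟩ := idx_sol l i s hdim hV
  have hsum : N v + P z ≤ 0 := by
    rw [hid]
    exact Finset.sum_nonpos fun c _ => hQ c _ (hl c)
  refine ⟨v, ?_, by linarith [hP z]⟩
  rintro rfl
  have hz : z = 0 := by
    apply hstrict
    have hl' : ∀ c, l c (s c z) = 0 := by
      intro c
      have := hl c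
      simpa using this
    have hle : ∀ c, Q c (s c z) ≤ 0 := fun c => hQ c _ (hl' c)
    have hge : 0 ≤ ∑ c, Q c (s c z) := by
      have := hid 0 z
      simp only [map_zero, zero_add] at this
      rw [N0, zero_add] at this
      rw [← this]
      exact hP z
    have hall : ∀ c ∈ Finset.univ, Q c (s c z) = 0 := by
      have h0 : ∑ c, Q c (s c z) = 0 := le_antisymm (Finset.sum_nonpos fun c _ => hle c) hge
      exact (Finset.sum_eq_zero_iff_of_nonpos fun c _ => hle c).mp h0
    exact fun c => ⟨hl' c, hall c (Finset.mem_univ c)⟩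
  rcases hne with h | h
  · exact h rfl
  · exact h hz

/-- the functional of a vector -/
def lin (l : ι → ℝ) : (ι → ℝ) →ₗ[ℝ] ℝ where
  toFun v := ∑ a, l a * v a
  map_add' u v := by
    simp only [Pi.add_apply, mul_add, Finset.sum_add_distrib]
  map_smul' t v := by
    simp only [Pi.smul_apply, smul_eq_mul, RingHom.id_apply, Finset.mul_sum]
    exact Finset.sum_congr rfl fun a _ => by ring

@[simp] theorem lin_apply (l v : ι → ℝ) : lin l v = ∑ a, l a * v a := rfl

/-- the row functional `v ↦ bil M w v` -/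
def row (M : ι → ι → ℝ) (w : ι → ℝ) : (ι → ℝ) →ₗ[ℝ] ℝ where
  toFun v := bil M w v
  map_add' u v := by
    have := bil_lin_right M w u v 1 1
    simpa using this
  map_smul' t v := by
    have := bil_lin_right M w v 0 t 0
    simpa using this

@[simp] theorem row_apply (M : ι → ι → ℝ) (w v : ι → ℝ) : row M w v = bil M w v := rfl

end Pool.Agent.Helper46.C2
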